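import Pool.Agent.V11124.EpMain

/-! Edge-pancyclic graphs with fewer than `(2 - ε) n` edges (negative answer to Q1 of MP_43a9c1_co). -/

namespace Pool.Agent.Results.MP_43a9c1_co.SparseEdgePancyclic

open SimpleGraph Pool.Agent.V11124.Ep

/-- A graph with `n` vertices is edge-pancyclic if, for every `k` with `3 ≤ k ≤ n`, each of its edges
is contained in a cycle of length `k`. -/
def EdgePancyclic {n : ℕ} (G : SimpleGraph (Fin n)) : Prop :=
  ∀ k : ℕ, 3 ≤ k → k ≤ n → ∀ e ∈ G.edgeSet,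
    ∃ (v : Fin n) (w : G.Walk v v), w.IsCycle ∧ w.length = k ∧ e ∈ w.edges

/-- the graph -/
def G (J : ℕ) : SimpleGraph (Fin (48 * J + 18)) where
  Adj x y := GA J x.1 y.1
  symm := ⟨fun x y h => GA_symm x.1 y.1 h⟩
  loopless := ⟨fun _ h => GA_ne h rfl⟩

theorem off_eq (J : ℕ) : off J + 10 = 48 * J + 18 := by unfold off; omega

theorem pancyclic (J : ℕ) : EdgePancyclic (G J) := by
  intro k h3 hk e he
  induction e using Sym2.ind with
  | _ x y =>
    have hxy : GA J x.1 y.1 := he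
    obtain ⟨a, I, h1, h2, h4, h5, h6⟩ := main_all hxy h3 (by rw [off_eq]; exact hk)
    obtain ⟨v, w, hw, hl, hm⟩ := cycle_of_list (GA J) (G J) (fun u v h => h) a I h1 h2
      (fun z hz => by rw [← off_eq]; exact h4 z hz) (by omega) x y h6
    exact ⟨v, w, hw, by omega, hm⟩

theorem nonempty (J : ℕ) : (G J).edgeSet.Nonempty := by
  refine ⟨s(⟨0, by omega⟩, ⟨1, by omega⟩), ?_⟩
  rw [SimpleGraph.mem_edgeSet]
  exact Or.inl ⟨2, 3, Or.inl (by decide), rfl, rfl⟩

/-- naturals as vertices -/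
def mk (J x : ℕ) : Fin (48 * J + 18) := ⟨x % (48 * J + 18), Nat.mod_lt _ (by omega)⟩

theorem mk_val (J : ℕ) (x : Fin (48 * J + 18)) : mk J x.1 = x := Fin.ext (Nat.mod_eq_of_lt x.2)

def phi (J : ℕ) : (Fin J × Fin 95) ⊕ (Fin 44 ⊕ Fin 44) → Sym2 (Fin (48 * J + 18))
  | Sum.inl (k, i) => s(mk J (off k.1 + (macE.getD i.1 (0, 0)).1), mk J (off k.1 + (macE.getD i.1 (0, 0)).2))
  | Sum.inr (Sum.inl i) => s(mk J (cO (capE.getD i.1 (0, 0)).1), mk J (cO (capE.getD i.1 (0, 0)).2))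
  | Sum.inr (Sum.inr i) => s(mk J (off J + (capE.getD i.1 (0, 0)).1), mk J (off J + (capE.getD i.1 (0, 0)).2))

theorem macE_length : macE.length = 95 := by decide +kernel

theorem capE_length : capE.length = 44 := by decide +kernel

theorem idxM {p : ℕ × ℕ} (h : p ∈ macE) : ∃ i : Fin 95, macE.getD i.1 (0, 0) = p := by
  rw [List.mem_iff_getElem] at h
  obtain ⟨i, hi, h⟩ := h
  exact ⟨⟨i, by rw [macE_length] at hi; exact hi⟩, by rw [List.getD_eq_getElem _ _ hi]; exact h⟩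

theorem idxC {p : ℕ × ℕ} (h : p ∈ capE) : ∃ i : Fin 44, capE.getD i.1 (0, 0) = p := by
  rw [List.mem_iff_getElem] at h
  obtain ⟨i, hi, h⟩ := h
  exact ⟨⟨i, by rw [capE_length] at hi; exact hi⟩, by rw [List.getD_eq_getElem _ _ hi]; exact h⟩

theorem edge_mem (J : ℕ) (x y : Fin (48 * J + 18)) (h : GA J x.1 y.1) : ∃ z, phi J z = s(x, y) := by
  have e1 : ∀ a b : ℕ, x.1 = a → y.1 = b → s(mk J a, mk J b) = s(x, y) := by
    rintro a b rfl rfl
    rw [mk_val, mk_val]
  have e2 : ∀ a b : ℕ, x.1 = a → y.1 = b → s(mk J b, mk J a) = s(x, y) := by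
    rintro a b rfl rfl
    rw [mk_val, mk_val, Sym2.eq_swap]
  rcases h with ⟨u, v, h, hx, hy⟩ | ⟨k, hk, u, v, h, hx, hy⟩ | ⟨u, v, h, hx, hy⟩
  · rcases h with h | h
    · obtain ⟨i, hi⟩ := idxC h
      exact ⟨Sum.inr (Sum.inl i), by simp only [phi, hi]; exact e1 _ _ hx hy⟩
    · obtain ⟨i, hi⟩ := idxC h
      exact ⟨Sum.inr (Sum.inl i), by simp only [phi, hi]; exact e2 _ _ hx hy⟩
  · rcases h with h | h
    · obtain ⟨i, hi⟩ := idxM h
      exact ⟨Sum.inl (⟨k, hk⟩, i), by simp only [phi, hi]; exact e1 _ _ hx hy⟩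
    · obtain ⟨i, hi⟩ := idxM h
      exact ⟨Sum.inl (⟨k, hk⟩, i), by simp only [phi, hi]; exact e2 _ _ hx hy⟩
  · rcases h with h | h
    · obtain ⟨i, hi⟩ := idxC h
      exact ⟨Sum.inr (Sum.inr i), by simp only [phi, hi]; exact e1 _ _ hx hy⟩
    · obtain ⟨i, hi⟩ := idxC h
      exact ⟨Sum.inr (Sum.inr i), by simp only [phi, hi]; exact e2 _ _ hx hy⟩

theorem edge_count (J : ℕ) : (G J).edgeSet.ncard ≤ 95 * J + 88 := by
  classical
  have h1 : (G J).edgeSet ⊆ ((Finset.univ.image (phi J) : Finset (Sym2 (Fin (48 * J + 18)))) : Set _) := by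
    intro e he
    induction e using Sym2.ind with
    | _ x y =>
      obtain ⟨z, hz⟩ := edge_mem J x y he
      simp only [Finset.coe_image, Finset.coe_univ, Set.image_univ, Set.mem_range]
      exact ⟨z, hz⟩
  calc (G J).edgeSet.ncard ≤ ((Finset.univ.image (phi J) : Finset (Sym2 (Fin (48 * J + 18)))) : Set _).ncard :=
        Set.ncard_le_ncard h1 (Finset.finite_toSet _)
    _ = (Finset.univ.image (phi J)).card := Set.ncard_coe_finset _
    _ ≤ (Finset.univ : Finset ((Fin J × Fin 95) ⊕ (Fin 44 ⊕ Fin 44))).card := Finset.card_image_le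
    _ = 95 * J + 88 := by
      rw [Finset.card_univ, Fintype.card_sum, Fintype.card_sum, Fintype.card_prod, Fintype.card_fin, Fintype.card_fin,
        Fintype.card_fin]
      ring

/-- For every `J` there is an edge-pancyclic graph with `48 J + 18` vertices and at most `95 J + 88`
edges.  Hence there is `ε > 0` such that for infinitely many `n` some edge-pancyclic graph (with at
least one edge) on `n` vertices has fewer than `(2 - ε) n` edges; `ε = 1/100` works. -/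
theorem result :
    (∀ J : ℕ, ∃ G : SimpleGraph (Fin (48 * J + 18)),
      G.edgeSet.Nonempty ∧ EdgePancyclic G ∧ G.edgeSet.ncard ≤ 95 * J + 88) ∧
    ∃ ε : ℝ, 0 < ε ∧ ∀ N : ℕ, ∃ n : ℕ, N ≤ n ∧ ∃ G : SimpleGraph (Fin n),
      G.edgeSet.Nonempty ∧ EdgePancyclic G ∧ (G.edgeSet.ncard : ℝ) < (2 - ε) * n := by
  refine ⟨fun J => ⟨G J, nonempty J, pancyclic J, edge_count J⟩, 1 / 100, by norm_num, fun N => ?_⟩
  refine ⟨48 * (N + 200) + 18, by omega, G (N + 200), nonempty _, pancyclic _, ?_⟩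
  have h := edge_count (N + 200)
  have h' : ((G (N + 200)).edgeSet.ncard : ℝ) ≤ 95 * ((N : ℝ) + 200) + 88 := by exact_mod_cast h
  have hN : (0 : ℝ) ≤ N := Nat.cast_nonneg N
  push_cast
  linarith

end Pool.Agent.Results.MP_43a9c1_co.SparseEdgePancyclic
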